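import Pool.Agent.Y315.OP.Stm

/-!
# OP-EIG: existence of eigenfunctions (project OP of helper315)
-/

set_option autoImplicit false

open MeasureTheory Filter Topology Pool.Agent.Y315.OP
open scoped ContDiff ENNReal

namespace Pool.Agent.Y768.OP.Eig

variable {d : ℕ}

/-! ### `L²` norms as lower integrals -/

section L2
variable {F : Type*} [NormedAddCommGroup F]

lemma memLp_two_iff {f : E d → F} (hf : AEStronglyMeasurable f volume) :
    MemLp f 2 ↔ ∫⁻ x, ‖f x‖ₑ ^ 2 < ⊤ := by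
  have h := eLpNorm_lt_top_iff_lintegral_rpow_enorm_lt_top (μ := (volume : Measure (E d)))
    (f := f) (p := 2) (by norm_num) (by norm_num)
  simp only [ENNReal.toReal_ofNat, ENNReal.rpow_ofNat] at h
  constructor
  · intro hm
    exact h.1 hm.2
  · intro hm
    exact ⟨hf, h.2 hm⟩

lemma norm_toLp_sq {f : E d → F} (hf : MemLp f 2) :
    ‖hf.toLp f‖ ^ 2 = (∫⁻ x, ‖f x‖ₑ ^ 2).toReal := by
  rw [Lp.norm_toLp, eLpNorm_eq_lintegral_rpow_enorm_toReal (by norm_num) (by norm_num)]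
  simp only [ENNReal.toReal_ofNat, ENNReal.rpow_ofNat, one_div]
  rw [← ENNReal.toReal_pow]
  congr 1
  rw [← ENNReal.rpow_natCast, ← ENNReal.rpow_mul]
  norm_num

lemma norm_sq_eq (f : Lp F 2 (volume : Measure (E d))) :
    ‖f‖ ^ 2 = (∫⁻ x, ‖f x‖ₑ ^ 2).toReal := by
  have h := norm_toLp_sq (Lp.memLp f)
  rwa [Lp.toLp_coeFn] at h

lemma lint_lt_top {f : E d → F} (hf : MemLp f 2) : ∫⁻ x, ‖f x‖ₑ ^ 2 < ⊤ :=
  (memLp_two_iff hf.1).1 hf

end L2

/-! ### The component `√V u` -/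

/-- the function `√V u` -/
noncomputable def hh (V : E d → ℝ≥0∞) (u : E d → ℝ) : E d → ℝ :=
  fun x => Real.sqrt (V x).toReal * u x

lemma ae_zero {V : E d → ℝ≥0∞} (hV : Measurable V) {u : E d → ℝ}
    (hu : AEStronglyMeasurable u volume) (h : ∫⁻ x, V x * ‖u x‖ₑ ^ 2 < ⊤) :
    ∀ᵐ x, V x = ⊤ → u x = 0 := by
  have hm : AEMeasurable (fun x => V x * ‖u x‖ₑ ^ 2) volume :=
    hV.aemeasurable.mul (hu.enorm.pow_const 2)
  filter_upwards [ae_lt_top' hm h.ne] with x hx hVx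
  rw [hVx] at hx
  by_contra hne
  have : ‖u x‖ₑ ^ 2 ≠ 0 := by
    simpa using hne
  rw [ENNReal.top_mul this] at hx
  exact lt_irrefl _ hx

lemma enorm_hh {V : E d → ℝ≥0∞} {u : E d → ℝ} {x : E d} (h : V x = ⊤ → u x = 0) :
    ‖hh V u x‖ₑ ^ 2 = V x * ‖u x‖ₑ ^ 2 := by
  by_cases hx : V x = ⊤
  · simp [hh, h hx]
  · unfold hh
    rw [enorm_mul, mul_pow]
    congr 1
    rw [Real.enorm_eq_ofReal (Real.sqrt_nonneg _), ← ENNReal.ofReal_pow (Real.sqrt_nonneg _),
      Real.sq_sqrt ENNReal.toReal_nonneg, ENNReal.ofReal_toReal hx]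

lemma aesm_hh {V : E d → ℝ≥0∞} (hV : Measurable V) {u : E d → ℝ}
    (hu : AEStronglyMeasurable u volume) : AEStronglyMeasurable (hh V u) volume :=
  (hV.ennreal_toReal.sqrt.aestronglyMeasurable).mul hu

lemma lint_hh {V : E d → ℝ≥0∞} {u : E d → ℝ} (h : ∀ᵐ x, V x = ⊤ → u x = 0) :
    ∫⁻ x, ‖hh V u x‖ₑ ^ 2 = ∫⁻ x, V x * ‖u x‖ₑ ^ 2 := by
  apply lintegral_congr_ae
  filter_upwards [h] with x hx
  exact enorm_hh hx

lemma memLp_hh {V : E d → ℝ≥0∞} (hV : Measurable V) {u : E d → ℝ} (hu : MemLp u 2)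
    (h : ∫⁻ x, V x * ‖u x‖ₑ ^ 2 < ⊤) : MemLp (hh V u) 2 := by
  rw [memLp_two_iff (aesm_hh hV hu.1), lint_hh (ae_zero hV hu.1 h)]
  exact h

/-! ### The Hilbert space -/

/-- `L²` functions -/
noncomputable abbrev LR (d : ℕ) := Lp ℝ 2 (volume : Measure (E d))
/-- `L²` vector fields -/
noncomputable abbrev LE (d : ℕ) := Lp (E d) 2 (volume : Measure (E d))
/-- the ambient Hilbert space -/
noncomputable abbrev X (d : ℕ) := WithLp 2 (LR d × WithLp 2 (LE d × LR d))

/-- the elements of `H¹_V` -/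
structure Mem (V : E d → ℝ≥0∞) (z : X d) : Prop where
  wg : WGrad (z.fst : E d → ℝ) (z.snd.fst : E d → E d)
  rel : ∀ᵐ x, (z.snd.snd : E d → ℝ) x = hh V (z.fst : E d → ℝ) x
  top : ∀ᵐ x, V x = ⊤ → (z.fst : E d → ℝ) x = 0

lemma tf_D {φ : E d → ℝ} (hφ : TF φ) (v : E d) : MemLp (fun x => fderiv ℝ φ x v) 2 volume := by
  have hc : Continuous (fun x => fderiv ℝ φ x v) :=
    (hφ.1.continuous_fderiv (by simp)).clm_apply continuous_const
  have hs : HasCompactSupport (fun x => fderiv ℝ φ x v) := by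
    have := hφ.2.fderiv (𝕜 := ℝ)
    exact this.comp_left (g := fun L : E d →L[ℝ] ℝ => L v) (by simp)
  exact hc.memLp_of_hasCompactSupport hs

lemma tf_P {φ : E d → ℝ} (hφ : TF φ) (v : E d) : MemLp (fun x => φ x • v) 2 volume := by
  have hc : Continuous (fun x => φ x • v) := hφ.1.continuous.smul continuous_const
  have hs : HasCompactSupport (fun x => φ x • v) := hφ.2.smul_right
  exact hc.memLp_of_hasCompactSupport hs

lemma wgrad_iff (U : LR d) (G : LE d) :
    WGrad (U : E d → ℝ) (G : E d → E d) ↔ ∀ (φ : E d → ℝ) (hφ : TF φ) (v : E d),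
      inner ℝ U ((tf_D hφ v).toLp _) + inner ℝ G ((tf_P hφ v).toLp _) = 0 := by
  have key : ∀ (φ : E d → ℝ) (hφ : TF φ) (v : E d),
      inner ℝ U ((tf_D hφ v).toLp _) = ∫ x, U x * fderiv ℝ φ x v ∧
      inner ℝ G ((tf_P hφ v).toLp _) = ∫ x, inner ℝ (G x) v * φ x := by
    intro φ hφ v
    constructor
    · rw [L2.inner_def]
      apply integral_congr_ae
      filter_upwards [(tf_D hφ v).coeFn_toLp] with x hx
      rw [hx]
      simp [mul_comm]
    · rw [L2.inner_def]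
      apply integral_congr_ae
      filter_upwards [(tf_P hφ v).coeFn_toLp] with x hx
      rw [hx, inner_smul_right, mul_comm]
  constructor
  · intro h φ hφ v
    rw [(key φ hφ v).1, (key φ hφ v).2, h φ hφ v]
    ring
  · intro h φ hφ v
    have := h φ hφ v
    rw [(key φ hφ v).1, (key φ hφ v).2] at this
    linarith

/-- the Hilbert space `H¹_V` as a submodule of the product -/
noncomputable def HV (V : E d → ℝ≥0∞) : Submodule ℝ (X d) where
  carrier := {z | Mem V z}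
  zero_mem' := by
    refine ⟨?_, ?_, ?_⟩
    · rw [wgrad_iff]
      intro φ hφ v
      simp
    · filter_upwards [Lp.coeFn_zero ℝ 2 (volume : Measure (E d))] with x hx
      simp only [WithLp.zero_snd, WithLp.zero_fst, hh]
      erw [hx]
      simp
    · filter_upwards [Lp.coeFn_zero ℝ 2 (volume : Measure (E d))] with x hx _
      simp only [WithLp.zero_fst]
      erw [hx]
      simp
  add_mem' := by
    intro a b ha hb
    refine ⟨?_, ?_, ?_⟩
    · rw [wgrad_iff]
      intro φ hφ v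
      have h1 := (wgrad_iff _ _).1 ha.wg φ hφ v
      have h2 := (wgrad_iff _ _).1 hb.wg φ hφ v
      simp only [WithLp.add_fst, WithLp.add_snd, inner_add_left]
      linarith
    · filter_upwards [Lp.coeFn_add a.snd.snd b.snd.snd, Lp.coeFn_add a.fst b.fst, ha.rel, hb.rel]
        with x h1 h2 h3 h4
      simp only [WithLp.add_fst, WithLp.add_snd, hh]
      rw [h1, h2, Pi.add_apply, Pi.add_apply, h3, h4]
      simp only [hh]
      ring
    · filter_upwards [Lp.coeFn_add a.fst b.fst, ha.top, hb.top] with x h2 h3 h4 hx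
      simp only [WithLp.add_fst]
      rw [h2, Pi.add_apply, h3 hx, h4 hx, add_zero]
  smul_mem' := by
    intro c a ha
    refine ⟨?_, ?_, ?_⟩
    · rw [wgrad_iff]
      intro φ hφ v
      have h1 := (wgrad_iff _ _).1 ha.wg φ hφ v
      simp only [WithLp.smul_fst, WithLp.smul_snd, inner_smul_left]
      simp only [conj_trivial]
      rw [← mul_add, h1, mul_zero]
    · filter_upwards [Lp.coeFn_smul c a.snd.snd, Lp.coeFn_smul c a.fst, ha.rel]
        with x h1 h2 h3
      simp only [WithLp.smul_fst, WithLp.smul_snd, hh]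
      rw [h1, h2, Pi.smul_apply, Pi.smul_apply, h3]
      simp only [hh, smul_eq_mul]
      ring
    · filter_upwards [Lp.coeFn_smul c a.fst, ha.top] with x h2 h3 hx
      simp only [WithLp.smul_fst]
      rw [h2, Pi.smul_apply, h3 hx, smul_zero]

lemma mem_HV {V : E d → ℝ≥0∞} {z : X d} : z ∈ HV V ↔ Mem V z := Iff.rfl

lemma isClosed_HV (V : E d → ℝ≥0∞) : IsClosed (HV V : Set (X d)) := by
  apply IsSeqClosed.isClosed
  intro z w hz hzw
  have hz' : ∀ n, Mem V (z n) := fun n => hz n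
  have c1 : Tendsto (fun n => (z n).fst) atTop (𝓝 w.fst) :=
    ((WithLp.continuous_fst 2 (LR d) (WithLp 2 (LE d × LR d))).tendsto w).comp hzw
  have c2 : Tendsto (fun n => (z n).snd) atTop (𝓝 w.snd) :=
    ((WithLp.continuous_snd 2 (LR d) (WithLp 2 (LE d × LR d))).tendsto w).comp hzw
  have c3 : Tendsto (fun n => (z n).snd.fst) atTop (𝓝 w.snd.fst) :=
    ((WithLp.continuous_fst 2 (LE d) (LR d)).tendsto w.snd).comp c2
  have c4 : Tendsto (fun n => (z n).snd.snd) atTop (𝓝 w.snd.snd) :=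
    ((WithLp.continuous_snd 2 (LE d) (LR d)).tendsto w.snd).comp c2
  have hae : ∀ᵐ x, ∃ ns : ℕ → ℕ,
      Tendsto (fun n => ((z (ns n)).fst : E d → ℝ) x) atTop (𝓝 ((w.fst : E d → ℝ) x)) ∧
      Tendsto (fun n => ((z (ns n)).snd.snd : E d → ℝ) x) atTop
        (𝓝 ((w.snd.snd : E d → ℝ) x)) := by
    obtain ⟨ns, hns, h1⟩ := (tendstoInMeasure_of_tendsto_Lp c1).exists_seq_tendsto_ae
    have c5 := c4.comp hns.tendsto_atTop
    obtain ⟨ms, hms, h2⟩ := (tendstoInMeasure_of_tendsto_Lp c5).exists_seq_tendsto_ae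
    filter_upwards [h1, h2] with x hx1 hx2
    exact ⟨ns ∘ ms, hx1.comp hms.tendsto_atTop, hx2⟩
  have hall : ∀ᵐ x, ∀ n, ((z n).snd.snd : E d → ℝ) x = hh V ((z n).fst : E d → ℝ) x :=
    ae_all_iff.2 fun n => (hz' n).rel
  have hall2 : ∀ᵐ x, ∀ n, V x = ⊤ → ((z n).fst : E d → ℝ) x = 0 :=
    ae_all_iff.2 fun n => (hz' n).top
  refine ⟨?_, ?_, ?_⟩
  · rw [wgrad_iff]
    intro φ hφ v
    have l1 : Tendsto (fun n => inner ℝ (z n).fst ((tf_D hφ v).toLp _) +
        inner ℝ (z n).snd.fst ((tf_P hφ v).toLp _)) atTop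
        (𝓝 (inner ℝ w.fst ((tf_D hφ v).toLp _) + inner ℝ w.snd.fst ((tf_P hφ v).toLp _))) :=
      (c1.inner tendsto_const_nhds).add (c3.inner tendsto_const_nhds)
    have l2 : (fun n => inner ℝ (z n).fst ((tf_D hφ v).toLp _) +
        inner ℝ (z n).snd.fst ((tf_P hφ v).toLp _)) = fun _ => (0 : ℝ) := by
      funext n
      exact (wgrad_iff _ _).1 (hz' n).wg φ hφ v
    rw [l2] at l1
    exact tendsto_nhds_unique l1 tendsto_const_nhds
  · filter_upwards [hae, hall] with x hx hr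
    obtain ⟨ns, h1, h2⟩ := hx
    have h3 : Tendsto (fun n => hh V ((z (ns n)).fst : E d → ℝ) x) atTop
        (𝓝 (hh V (w.fst : E d → ℝ) x)) := by
      unfold hh
      exact h1.const_mul _
    have h4 : (fun n => ((z (ns n)).snd.snd : E d → ℝ) x) =
        fun n => hh V ((z (ns n)).fst : E d → ℝ) x := by
      funext n
      exact hr (ns n)
    rw [h4] at h2
    exact tendsto_nhds_unique h2 h3
  · filter_upwards [hae, hall2] with x hx hr hV
    obtain ⟨ns, h1, h2⟩ := hx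
    have h4 : (fun n => ((z (ns n)).fst : E d → ℝ) x) = fun n => 0 := by
      funext n
      exact hr (ns n) hV
    rw [h4] at h1
    exact tendsto_nhds_unique h1 tendsto_const_nhds

/-! ### Elements of the Hilbert space from functions -/

/-- the element of the Hilbert space given by a function of `H¹_V` -/
noncomputable def mkX {V : E d → ℝ≥0∞} (hV : Measurable V) {u : E d → ℝ} {g : E d → E d}
    (h : InH V u g) : X d :=
  WithLp.toLp 2 (h.mu.toLp u, WithLp.toLp 2 (h.mg.toLp g, (memLp_hh hV h.mu h.fin).toLp _))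

lemma mkX_mem {V : E d → ℝ≥0∞} (hV : Measurable V) {u : E d → ℝ} {g : E d → E d}
    (h : InH V u g) : mkX hV h ∈ HV V := by
  refine ⟨?_, ?_, ?_⟩
  · intro φ hφ v
    have e1 : ∫ x, ((mkX hV h).fst : E d → ℝ) x * fderiv ℝ φ x v = ∫ x, u x * fderiv ℝ φ x v := by
      apply integral_congr_ae
      filter_upwards [h.mu.coeFn_toLp] with x hx
      simp only [mkX, WithLp.toLp_fst]
      rw [hx]
    have e2 : ∫ x, inner ℝ (((mkX hV h).snd.fst : E d → E d) x) v * φ x =
        ∫ x, inner ℝ (g x) v * φ x := by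
      apply integral_congr_ae
      filter_upwards [h.mg.coeFn_toLp] with x hx
      simp only [mkX, WithLp.toLp_fst, WithLp.toLp_snd]
      rw [hx]
    rw [e1, e2]
    exact h.wg φ hφ v
  · filter_upwards [h.mu.coeFn_toLp, (memLp_hh hV h.mu h.fin).coeFn_toLp] with x h1 h2
    simp only [mkX, WithLp.toLp_fst, WithLp.toLp_snd]
    rw [h2]
    simp only [hh]
    rw [h1]
  · filter_upwards [h.mu.coeFn_toLp, ae_zero hV h.mu.1 h.fin] with x h1 h2 hx
    simp only [mkX, WithLp.toLp_fst]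
    rw [h1, h2 hx]

/-- the element of the Hilbert space given by a function of `H¹_V` -/
noncomputable def mk {V : E d → ℝ≥0∞} (hV : Measurable V) {u : E d → ℝ} {g : E d → E d}
    (h : InH V u g) : HV V := ⟨mkX hV h, mkX_mem hV h⟩

lemma inH_of_mem {V : E d → ℝ≥0∞} {z : X d} (h : Mem V z) :
    InH V (z.fst : E d → ℝ) (z.snd.fst : E d → E d) := by
  refine ⟨Lp.memLp _, Lp.memLp _, h.wg, ?_⟩
  have h1 : ∫⁻ x, ‖(z.snd.snd : E d → ℝ) x‖ₑ ^ 2 = ∫⁻ x, V x * ‖(z.fst : E d → ℝ) x‖ₑ ^ 2 := by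
    rw [← lint_hh h.top]
    apply lintegral_congr_ae
    filter_upwards [h.rel] with x hx
    rw [hx]
  rw [← h1]
  exact lint_lt_top (Lp.memLp _)

lemma norm_sq_X (z : X d) : ‖z‖ ^ 2 = ‖z.fst‖ ^ 2 + (‖z.snd.fst‖ ^ 2 + ‖z.snd.snd‖ ^ 2) := by
  rw [WithLp.prod_norm_sq_eq_of_L2, WithLp.prod_norm_sq_eq_of_L2]

/-- the norm of an element of the Hilbert space -/
lemma norm_sq_of_mem {V : E d → ℝ≥0∞} {z : X d} (h : Mem V z) :
    ENNReal.ofReal (‖z‖ ^ 2) = Pool.Agent.Y315.OP.sq (z.fst : E d → ℝ) +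
      energy V (z.fst : E d → ℝ) (z.snd.fst : E d → E d) := by
  have h1 : ∫⁻ x, ‖(z.snd.snd : E d → ℝ) x‖ₑ ^ 2 = ∫⁻ x, V x * ‖(z.fst : E d → ℝ) x‖ₑ ^ 2 := by
    rw [← lint_hh h.top]
    apply lintegral_congr_ae
    filter_upwards [h.rel] with x hx
    rw [hx]
  rw [norm_sq_X, norm_sq_eq, norm_sq_eq, norm_sq_eq]
  rw [ENNReal.ofReal_add ENNReal.toReal_nonneg (by positivity),
    ENNReal.ofReal_add ENNReal.toReal_nonneg ENNReal.toReal_nonneg,
    ENNReal.ofReal_toReal (lint_lt_top (Lp.memLp _)).ne,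
    ENNReal.ofReal_toReal (lint_lt_top (Lp.memLp _)).ne,
    ENNReal.ofReal_toReal (lint_lt_top (Lp.memLp _)).ne, h1]
  rfl

/-! ### Generic facts on Hilbert spaces -/

section gen
variable {H K : Type} [NormedAddCommGroup H] [InnerProductSpace ℝ H] [NormedAddCommGroup K]
  [InnerProductSpace ℝ K]

/-- continuous linear maps (generic instances) -/
abbrev CL (H K : Type) [NormedAddCommGroup H] [InnerProductSpace ℝ H] [NormedAddCommGroup K]
  [InnerProductSpace ℝ K] := H →L[ℝ] K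

/-- compact operators (generic instances) -/
def Cpt (T : CL H K) : Prop := IsCompactOperator T

/-- linear combinations (generic instances) -/
noncomputable def comb {k : ℕ} (c : Fin k → ℝ) (v : Fin k → H) : H := ∑ i, c i • v i

lemma map_comb {k : ℕ} (T : CL H K) (c : Fin k → ℝ) (v : Fin k → H) :
    T (comb c v) = ∑ i, c i • T (v i) := by
  unfold comb
  rw [map_sum]
  simp only [map_smul]

lemma cpt_of_seq (T : CL H K) (key : ∀ y : ℕ → H, (∀ n, ‖y n‖ < 1) →
    ∃ (w : K) (φ : ℕ → ℕ), StrictMono φ ∧ Tendsto (fun n => T (y (φ n))) atTop (𝓝 w)) :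
    Cpt T := by
  refine (isCompactOperator_iff_isCompact_closure_image_ball (T : H →ₗ[ℝ] K) one_pos).2 ?_
  rw [isCompact_iff_isSeqCompact]
  intro x hx
  have hx' : ∀ n : ℕ, ∃ y : H, ‖y‖ < 1 ∧ dist (x n) (T y) < 1 / ((n : ℝ) + 1) := by
    intro n
    obtain ⟨b, hb, hb2⟩ := Metric.mem_closure_iff.1 (hx n) (1 / ((n : ℝ) + 1)) (by positivity)
    obtain ⟨y, hy, rfl⟩ := hb
    exact ⟨y, by simpa using hy, hb2⟩
  choose y hy hxy using hx'
  obtain ⟨w, φ, hφ, ht⟩ := key y hy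
  have ht2 : Tendsto (fun n => x (φ n)) atTop (𝓝 w) := by
    have h5 : Tendsto (fun n => dist (T (y (φ n))) (x (φ n))) atTop (𝓝 0) := by
      have h6 : Tendsto (fun n : ℕ => 1 / (((φ n : ℕ) : ℝ) + 1)) atTop (𝓝 0) :=
        tendsto_one_div_add_atTop_nhds_zero_nat.comp hφ.tendsto_atTop
      refine squeeze_zero (fun n => dist_nonneg) (fun n => ?_) h6
      rw [dist_comm]
      exact (hxy (φ n)).le
    exact (tendsto_iff_of_dist h5).1 ht
  refine ⟨w, ?_, φ, hφ, ht2⟩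
  exact isClosed_closure.mem_of_tendsto ht2 (Eventually.of_forall fun n => hx (φ n))

lemma abs' (h2 : S_ABS) [CompleteSpace H] [CompleteSpace K] (T : CL H K) (hc : Cpt T)
    (k : ℕ) (L : ℝ) (hL : 0 ≤ L)
    (hy : ∀ L' : ℝ, L < L' → ∃ v : Fin k → H, (∀ c : Fin k → ℝ, c ≠ 0 → T (comb c v) ≠ 0) ∧
      ∀ c : Fin k → ℝ, ‖comb c v‖ ^ 2 ≤ (L' + 1) * ‖T (comb c v)‖ ^ 2) :
    ∃ (e : Fin k → H) (ν : Fin k → ℝ),
      (∀ i j, inner ℝ (T (e i)) (T (e j)) = if i = j then (1 : ℝ) else 0) ∧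
      (∀ i, ν i ≤ L) ∧
      ∀ i (v : H), inner ℝ (e i) v = (ν i + 1) * inner ℝ (T (e i)) (T v) :=
  h2 H K T hc k L hL hy

end gen

/-! ### The embedding -/

/-- the embedding of the Hilbert space into `L²` -/
noncomputable def J (V : E d → ℝ≥0∞) : CL (HV V) (LR d) :=
  (WithLp.fstL 2 ℝ (LR d) (WithLp 2 (LE d × LR d))).comp (HV V).subtypeL

/-- the gradient as a bounded operator -/
noncomputable def J2 (V : E d → ℝ≥0∞) : CL (HV V) (LE d) :=
  (((WithLp.fstL 2 ℝ (LE d) (LR d)).comp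
        (WithLp.sndL 2 ℝ (LR d) (WithLp 2 (LE d × LR d)))).comp (HV V).subtypeL)

lemma J_apply {V : E d → ℝ≥0∞} (z : HV V) : J V z = (z : X d).fst := rfl

lemma ofReal_norm_sq {F : Type*} [NormedAddCommGroup F] (f : Lp F 2 (volume : Measure (E d))) :
    ENNReal.ofReal (‖f‖ ^ 2) = ∫⁻ x, ‖f x‖ₑ ^ 2 := by
  rw [norm_sq_eq, ENNReal.ofReal_toReal (lint_lt_top (Lp.memLp _)).ne]

lemma cpt_J (h1 : S_COMP) {p : ℝ} {V : E d → ℝ≥0∞} (hd : 1 ≤ d) (hp : 0 < p)
    (hV : Measurable V) (hm : mass p V < ⊤) : Cpt (J V) := by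
  apply cpt_of_seq
  intro y hy
  obtain ⟨φ, w, hφ, hw, ht⟩ := h1 d p V hd hp hV hm 1 one_pos
    (fun n => ((y n : X d).fst : E d → ℝ)) (fun n => ((y n : X d).snd.fst : E d → E d))
    (fun n => inH_of_mem (y n).2) (by
      intro n
      rw [← norm_sq_of_mem (y n).2]
      apply ENNReal.ofReal_le_ofReal
      have h0 : ‖(y n : X d)‖ < 1 := hy n
      nlinarith [norm_nonneg (y n : X d)])
  refine ⟨hw.toLp w, φ, hφ, ?_⟩
  rw [tendsto_iff_norm_sub_tendsto_zero]
  have h2 : Tendsto (fun n => ‖J V (y (φ n)) - hw.toLp w‖ ^ 2) atTop (𝓝 0) := by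
    have h3 : ∀ n, ‖J V (y (φ n)) - hw.toLp w‖ ^ 2 =
        (Pool.Agent.Y315.OP.sq (fun x => ((y (φ n) : X d).fst : E d → ℝ) x - w x)).toReal := by
      intro n
      rw [norm_sq_eq]
      congr 1
      apply lintegral_congr_ae
      filter_upwards [Lp.coeFn_sub (J V (y (φ n))) (hw.toLp w), hw.coeFn_toLp] with x e1 e2
      rw [e1, Pi.sub_apply, e2]
      rfl
    simp only [h3]
    have := (ENNReal.tendsto_toReal (a := 0) (by simp)).comp ht
    simpa [Function.comp_def] using this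
  have h4 := h2.sqrt
  simpa [Real.sqrt_sq (norm_nonneg _)] using h4

/-! ### Linear combinations -/

section comb
variable {k : ℕ} {V : E d → ℝ≥0∞} (hV : Measurable V) {u : Fin k → E d → ℝ}
  {g : Fin k → E d → E d} (h : ∀ i, InH V (u i) (g i)) (c : Fin k → ℝ)

lemma coeFn_sum {F : Type*} [NormedAddCommGroup F] [NormedSpace ℝ F]
    (f : Fin k → Lp F 2 (volume : Measure (E d))) (c : Fin k → ℝ) :
    ∀ᵐ x, (∑ i, c i • f i : Lp F 2 (volume : Measure (E d))) x = ∑ i, c i • (f i) x := by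
  have : ∀ s : Finset (Fin k), ∀ᵐ x, (∑ i ∈ s, c i • f i : Lp F 2 (volume : Measure (E d))) x =
      ∑ i ∈ s, c i • (f i) x := by
    intro s
    induction s using Finset.induction_on with
    | empty =>
      filter_upwards [Lp.coeFn_zero F 2 (volume : Measure (E d))] with x hx
      rw [Finset.sum_empty, Finset.sum_empty]
      exact hx
    | insert a s ha ih =>
      rw [Finset.sum_insert ha]
      filter_upwards [ih, Lp.coeFn_add (c a • f a) (∑ i ∈ s, c i • f i),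
        Lp.coeFn_smul (c a) (f a)] with x h1 h2 h3
      rw [h2, Pi.add_apply, h1, h3, Finset.sum_insert ha]
      rfl
  exact this Finset.univ

lemma fst_sum : ((comb c (fun i => mk hV (h i)) : HV V) : X d).fst =
    ∑ i, c i • (h i).mu.toLp (u i) :=
  map_comb (J V) c (fun i => mk hV (h i))

lemma fst_comb : ∀ᵐ x, (((comb c (fun i => mk hV (h i)) : HV V) : X d).fst : E d → ℝ) x =
    lc c u x := by
  rw [fst_sum]
  have h1 : ∀ᵐ x, ∀ i, ((h i).mu.toLp (u i) : E d → ℝ) x = u i x :=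
    ae_all_iff.2 fun i => (h i).mu.coeFn_toLp
  filter_upwards [coeFn_sum (fun i => (h i).mu.toLp (u i)) c, h1] with x h2 h3
  rw [h2]
  simp only [lc, h3, smul_eq_mul]

lemma snd_comb : ∀ᵐ x, (((comb c (fun i => mk hV (h i)) : HV V) : X d).snd.fst : E d → E d) x =
    lcg c g x := by
  have e : ((comb c (fun i => mk hV (h i)) : HV V) : X d).snd.fst =
      ∑ i, c i • (h i).mg.toLp (g i) :=
    map_comb (J2 V) c (fun i => mk hV (h i))
  rw [e]
  have h1 : ∀ᵐ x, ∀ i, ((h i).mg.toLp (g i) : E d → E d) x = g i x :=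
    ae_all_iff.2 fun i => (h i).mg.coeFn_toLp
  filter_upwards [coeFn_sum (fun i => (h i).mg.toLp (g i)) c, h1] with x h2 h3
  rw [h2]
  simp only [lcg, h3]

lemma norm_J_comb : ENNReal.ofReal (‖J V (comb c (fun i => mk hV (h i)))‖ ^ 2) =
    Pool.Agent.Y315.OP.sq (lc c u) := by
  rw [ofReal_norm_sq]
  apply lintegral_congr_ae
  filter_upwards [fst_comb hV h c] with x hx
  rw [J_apply, hx]

lemma norm_comb : ENNReal.ofReal (‖(comb c (fun i => mk hV (h i)) : HV V)‖ ^ 2) =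
    Pool.Agent.Y315.OP.sq (lc c u) + energy V (lc c u) (lcg c g) := by
  have h0 : ‖(comb c (fun i => mk hV (h i)) : HV V)‖ =
    ‖((comb c (fun i => mk hV (h i)) : HV V) : X d)‖ := rfl
  rw [h0, norm_sq_of_mem (comb c (fun i => mk hV (h i)) : HV V).2]
  congr 1
  · apply lintegral_congr_ae
    filter_upwards [fst_comb hV h c] with x hx
    rw [hx]
  · unfold energy
    congr 1
    · apply lintegral_congr_ae
      filter_upwards [snd_comb hV h c] with x hx
      rw [hx]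
    · apply lintegral_congr_ae
      filter_upwards [fst_comb hV h c] with x hx
      rw [hx]

end comb

lemma inner_HV {V : E d → ℝ≥0∞} (a b : HV V) :
    inner ℝ a b = inner ℝ (a : X d).fst (b : X d).fst +
      (inner ℝ (a : X d).snd.fst (b : X d).snd.fst +
        inner ℝ (a : X d).snd.snd (b : X d).snd.snd) := rfl

lemma mk_fst {V : E d → ℝ≥0∞} (hV : Measurable V) {u : E d → ℝ} {g : E d → E d}
    (h : InH V u g) : (mk hV h : X d).fst = h.mu.toLp u := rfl

lemma mk_snd_fst {V : E d → ℝ≥0∞} (hV : Measurable V) {u : E d → ℝ} {g : E d → E d}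
    (h : InH V u g) : (mk hV h : X d).snd.fst = h.mg.toLp g := rfl

lemma mk_snd_snd {V : E d → ℝ≥0∞} (hV : Measurable V) {u : E d → ℝ} {g : E d → E d}
    (h : InH V u g) : (mk hV h : X d).snd.snd = (memLp_hh hV h.mu h.fin).toLp _ := rfl

lemma hyp_abs {k : ℕ} {V : E d → ℝ≥0∞} (hV : Measurable V) {L : ℝ} (hL : 0 ≤ L)
    (hlam : lam k V = ENNReal.ofReal L) (L' : ℝ) (hL' : L < L') :
    ∃ v : Fin k → HV V, (∀ c : Fin k → ℝ, c ≠ 0 → J V (comb c v) ≠ 0) ∧
      ∀ c : Fin k → ℝ, ‖comb c v‖ ^ 2 ≤ (L' + 1) * ‖J V (comb c v)‖ ^ 2 := by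
  have hlt : lam k V < ENNReal.ofReal L' := by
    rw [hlam]
    exact (ENNReal.ofReal_lt_ofReal_iff (by linarith)).2 hL'
  obtain ⟨M, ⟨u, g, hin, hne, hE⟩, hM⟩ := sInf_lt_iff.1 hlt
  refine ⟨fun i => mk hV (hin i), ?_, ?_⟩
  · intro c hc h0
    apply hne c hc
    rw [← norm_J_comb hV hin c, h0]
    simp
  · intro c
    have a1 := norm_comb hV hin c
    have a2 := norm_J_comb hV hin c
    have a3 := hE c
    have a4 : ENNReal.ofReal (‖(comb c (fun i => mk hV (hin i)) : HV V)‖ ^ 2) ≤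
        ENNReal.ofReal ((L' + 1) * ‖J V (comb c (fun i => mk hV (hin i)))‖ ^ 2) := by
      rw [a1, ENNReal.ofReal_mul (by linarith), ENNReal.ofReal_add (by linarith) zero_le_one,
        a2, add_mul, ENNReal.ofReal_one, one_mul, add_comm]
      gcongr
      exact a3.trans (by gcongr)
    have hL0 : 0 ≤ L' + 1 := by linarith
    exact (ENNReal.ofReal_le_ofReal_iff (by positivity)).1 a4

lemma int1 (U : LR d) {φ : E d → ℝ} (hφ : MemLp φ 2) :
    inner ℝ U (hφ.toLp φ) = ∫ x, (U : E d → ℝ) x * φ x := by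
  rw [L2.inner_def]
  apply integral_congr_ae
  filter_upwards [hφ.coeFn_toLp] with x hx
  rw [hx]
  simp [mul_comm]

lemma int2 (G : LE d) {γ : E d → E d} (hγ : MemLp γ 2) :
    inner ℝ G (hγ.toLp γ) = ∫ x, inner ℝ ((G : E d → E d) x) (γ x) := by
  rw [L2.inner_def]
  apply integral_congr_ae
  filter_upwards [hγ.coeFn_toLp] with x hx
  rw [hx]

lemma int3 {V : E d → ℝ≥0∞} {z : X d} (hz : Mem V z) {φ : E d → ℝ} (hφ : MemLp (hh V φ) 2) :
    inner ℝ z.snd.snd (hφ.toLp _) = ∫ x, (V x).toReal * ((z.fst : E d → ℝ) x * φ x) := by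
  rw [L2.inner_def]
  apply integral_congr_ae
  filter_upwards [hφ.coeFn_toLp, hz.rel] with x hx hr
  rw [hx, hr]
  simp only [hh]
  have hs : Real.sqrt (V x).toReal * Real.sqrt (V x).toReal = (V x).toReal :=
    Real.mul_self_sqrt ENNReal.toReal_nonneg
  rw [real_inner_eq_re_inner, RCLike.inner_apply]
  simp only [conj_trivial, RCLike.re_to_real]
  rw [← hs]
  ring_nf
  rw [Real.sqrt_sq (Real.sqrt_nonneg _)]

/-! ### The theorem -/

/-- **OP-EIG.** -/
theorem eig (h1 : S_COMP) (h2 : S_ABS) : S_EIG := by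
  intro d p k V L hd hp hV hm hL hlam
  have : CompleteSpace (HV V) := (isClosed_HV V).completeSpace_coe
  obtain ⟨e, ν, ho, hν, he⟩ := abs' h2 (J V) (cpt_J h1 hd hp hV hm) k L hL
    (hyp_abs hV hL hlam)
  refine ⟨fun i => ((e i : X d).fst : E d → ℝ), fun i => ((e i : X d).snd.fst : E d → E d), ν,
    fun i => inH_of_mem (e i).2, ?_, hν, ?_⟩
  · intro i j
    have h3 := ho i j
    rw [L2.inner_def] at h3
    rw [← h3]
    apply integral_congr_ae
    filter_upwards with x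
    rw [J_apply, J_apply, RCLike.inner_apply, mul_comm]
    simp only [conj_trivial]
  · intro i φ γ hφ
    have h3 := he i (mk hV hφ)
    rw [inner_HV, J_apply, J_apply, mk_fst, mk_snd_fst, mk_snd_snd, int1, int2, int3 (e i).2] at h3
    linarith

end Pool.Agent.Y768.OP.Eig
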